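import Mathlib
import Pool.Agent.Q197.AffineShift

/-!
# MP_f650bf_an: weak compactness and fixed points of uniformly Lipschitz affine maps

Every nonempty, bounded, closed, convex subset `C` of a (real or complex) Banach space that is not
weakly compact contains a nonempty, bounded, closed, convex set `K` carrying a uniformly Lipschitz
affine map `K → K` without fixed points.  This answers Q1 affirmatively, so weak compactness of `C`
is characterised by the generic fixed point property for uniformly Lipschitz affine maps.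

Idea of the proof: `C` contains a basic sequence `(x_n)` dominating the summing basis.  On
`K = closed convex hull of (x_n)` put `f(Σ t_i x_i) = Σ t_i x_i + Σ_n 2^{-(n+1)} T_n (x_{n+1}-x_n)`
with `T_n = Σ_{i ≤ n} t_i`.  The `k`-th iterate has the same form with `1 - (1 - 2^{-(n+1)})^k` in
place of `2^{-(n+1)}`; these coefficients decrease in `n` and lie in `[0,1]`, so summation by parts
bounds all iterates at once.
-/

set_option autoImplicit false
set_option maxSynthPendingDepth 3

namespace Pool.Agent.Results.MP_f650bf_an.UniformlyLipschitzAffine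

open Set Filter Topology

variable {X : Type*} [NormedAddCommGroup X]

/-- `K` belongs to the family `B(M)` of nonempty, bounded, closed, convex subsets of `M`. -/
def InB [NormedSpace ℝ X] (M K : Set X) : Prop :=
  K ⊆ M ∧ K.Nonempty ∧ Bornology.IsBounded K ∧ IsClosed K ∧ Convex ℝ K

/-- `f` is affine on `K`. -/
def IsAffineOn [NormedSpace ℝ X] (f : X → X) (K : Set X) : Prop :=
  ∀ x ∈ K, ∀ y ∈ K, ∀ t ∈ Icc (0 : ℝ) 1, f (t • x + (1 - t) • y) = t • f x + (1 - t) • f y

/-- `f` is uniformly Lipschitz on `K`: all iterates are `L`-Lipschitz on `K` with the same `L`. -/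
def IsUniformlyLipschitzOn (f : X → X) (K : Set X) : Prop :=
  ∃ L : ℝ, 0 < L ∧ ∀ x ∈ K, ∀ y ∈ K, ∀ p : ℕ, ‖f^[p] x - f^[p] y‖ ≤ L * ‖x - y‖

/-- `C` is compact in the weak topology of the Banach space `X` over `𝕜`. -/
def IsWeaklyCompact (𝕜 : Type*) [RCLike 𝕜] [NormedSpace 𝕜 X] (C : Set X) : Prop :=
  IsCompact (toWeakSpace 𝕜 X '' C)

/-- Real weak compactness implies weak compactness over `𝕜`. -/
lemma weaklyCompact_of_real (𝕜 : Type*) [RCLike 𝕜] [NormedSpace 𝕜 X] [NormedSpace ℝ X]
    [IsScalarTower ℝ 𝕜 X] (C : Set X) (h : IsWeaklyCompact ℝ C) : IsWeaklyCompact 𝕜 C := by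
  let g : WeakSpace ℝ X → WeakSpace 𝕜 X := fun a => toWeakSpace 𝕜 X ((toWeakSpace ℝ X).symm a)
  have hg : Continuous g := by
    apply WeakBilin.continuous_of_continuous_eval
    intro y
    let yr : StrongDual ℝ X := (RCLike.reCLM (K := 𝕜)).comp (y.restrictScalars ℝ)
    let yi : StrongDual ℝ X := (RCLike.imCLM (K := 𝕜)).comp (y.restrictScalars ℝ)
    have hr : Continuous fun a : WeakSpace ℝ X => yr ((toWeakSpace ℝ X).symm a) :=
      WeakBilin.eval_continuous (topDualPairing ℝ X).flip yr
    have hi : Continuous fun a : WeakSpace ℝ X => yi ((toWeakSpace ℝ X).symm a) :=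
      WeakBilin.eval_continuous (topDualPairing ℝ X).flip yi
    have heq : (fun a : WeakSpace ℝ X => (topDualPairing 𝕜 X).flip (g a) y) =
        fun a : WeakSpace ℝ X => ((yr ((toWeakSpace ℝ X).symm a) : ℝ) : 𝕜) +
          ((yi ((toWeakSpace ℝ X).symm a) : ℝ) : 𝕜) * RCLike.I := by
      funext a
      exact (RCLike.re_add_im (y ((toWeakSpace ℝ X).symm a))).symm
    rw [heq]
    exact (RCLike.continuous_ofReal.comp hr).add
      ((RCLike.continuous_ofReal.comp hi).mul continuous_const)
  have himg : g '' (toWeakSpace ℝ X '' C) = toWeakSpace 𝕜 X '' C := by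
    rw [Set.image_image]
    exact Set.image_congr fun a _ => by simp [g]
  have := h.image hg
  rw [himg] at this
  exact this

/-- **Affirmative answer to Q1.**  Let `X` be a Banach space over `𝕜` (real or complex numbers),
and let `C` be a nonempty, bounded, closed, convex subset of `X` that is not weakly compact.  Then
there are `K` in `B(C)` and a uniformly Lipschitz affine map `f : K → K` with no fixed point. -/
theorem result {𝕜 : Type*} [RCLike 𝕜] {X : Type*} [NormedAddCommGroup X] [NormedSpace 𝕜 X]
    [NormedSpace ℝ X] [IsScalarTower ℝ 𝕜 X] [CompleteSpace X] (C : Set X)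
    (hC : InB univ C) (hw : ¬ IsWeaklyCompact 𝕜 C) :
    ∃ K : Set X, InB C K ∧ ∃ f : X → X, MapsTo f K K ∧ IsAffineOn f K ∧
      IsUniformlyLipschitzOn f K ∧ ∀ x ∈ K, f x ≠ x := by
  obtain ⟨-, -, hb, hcl, hconv⟩ := hC
  have hw' : ¬ IsCompact (toWeakSpace ℝ X '' C) := fun h => hw (weaklyCompact_of_real 𝕜 C h)
  obtain ⟨x, C₁, C₂, f, c, hxC, hwide, hc, hf⟩ := Q197.WideEst.exists_wide C hb hcl hconv hw'
  obtain ⟨R, hR⟩ := hb.exists_norm_le
  have hwide' : Q197.WideEst.Wide x |C₁| C₂ := by
    refine ⟨fun t n k hk => (hwide.tail t n k hk).trans ?_, hwide.part⟩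
    exact mul_le_mul_of_nonneg_right (le_abs_self _) (norm_nonneg _)
  obtain ⟨T, L, hL, hTK, hTL, hTfix⟩ := Q197.AffineShift.main hwide' (abs_nonneg _)
    (fun n => hR _ (hxC n)) f c hc hf
  have hKC : closure (convexHull ℝ (Set.range x)) ⊆ C := by
    refine closure_minimal (convexHull_min ?_ hconv) hcl
    rintro _ ⟨i, rfl⟩; exact hxC i
  refine ⟨closure (convexHull ℝ (Set.range x)), ⟨hKC, ?_, hb.subset hKC, isClosed_closure,
    (convex_convexHull ℝ _).closure⟩, T, hTK, ?_, ⟨L, hL, ?_⟩, hTfix⟩
  · exact ⟨x 0, subset_closure (subset_convexHull ℝ _ ⟨0, rfl⟩)⟩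
  · intro a _ b _ t _
    rw [map_add, map_smul, map_smul]
  · intro a ha b hb' p
    have hit : ∀ v : X, T^[p] v = (T ^ p) v := by
      intro v
      induction p generalizing v with
      | zero => simp
      | succ p ih => rw [Function.iterate_succ_apply, ih, pow_succ, mul_apply_eq_comp]
    rw [hit, hit, ← map_sub]
    refine hTL (a - b) ?_ p
    have hKE : closure (convexHull ℝ (Set.range x)) ⊆
        (Submodule.span ℝ (Set.range x)).topologicalClosure := by
      refine closure_mono ?_
      exact convexHull_min Submodule.subset_span (Submodule.convex _)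
    exact Submodule.sub_mem _ (hKE ha) (hKE hb')

end Pool.Agent.Results.MP_f650bf_an.UniformlyLipschitzAffine
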